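import Pool.Agent.H654R5.PT.Stm

namespace Pool.Agent.H654R5.PT.LF

theorem LF_proof : S_LF := by
  intro q m hq hm
  have hm0 : m ≠ 0 := by omega
  have h1 : q ^ Nat.log q m ≤ m := Nat.pow_log_le_self q hm0
  have h2 : m < q ^ (Nat.log q m + 1) := Nat.lt_pow_succ_log_self (by omega) m
  have hpos : 0 < q ^ Nat.log q m := by positivity
  have h3 : m / q ^ Nat.log q m * q ^ Nat.log q m ≤ m := Nat.div_mul_le_self _ _
  have h4 : 1 ≤ m / q ^ Nat.log q m := (Nat.one_le_div_iff hpos).2 h1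
  have h5 : m / q ^ Nat.log q m < q := by
    rw [Nat.div_lt_iff_lt_mul hpos]
    rw [pow_succ'] at h2
    exact h2
  have h6 : m < (m / q ^ Nat.log q m + 1) * q ^ Nat.log q m := by
    have := Nat.lt_mul_div_succ m hpos
    rw [mul_comm]
    exact this
  have hlf : lf q m = m / q ^ Nat.log q m * q ^ Nat.log q m := rfl
  refine ⟨h3, ?_, m / q ^ Nat.log q m, Nat.log q m, h4, h5, h1, hlf⟩
  rw [hlf]
  nlinarith

end Pool.Agent.H654R5.PT.LF
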